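import Pool.Agent.H32.Dense.Fam
import Pool.Agent.H9.KRN.Defs

/-!
# KTH: heavy caps, the second level and the reduction of Kakeya sets (statements)

Families of lines `(u, v)` with a random time, as in `H32/Dense`, resolution `M = 2 ^ J`.
-/

set_option autoImplicit false

namespace Pool.Agent.H24.KTH

open Finset Real
open Pool.Agent.H49.Ent Pool.Agent.H32.Dense

/-- The sup distance of two integer vectors. -/
noncomputable def dsv {d : ℕ} (x y : Fin d → ℤ) : ℝ := ‖(fun k => ((x k - y k : ℤ) : ℝ))‖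

/-- `log (M / |x - y|)`, sup norm. -/
noncomputable def lvv {d : ℕ} (M : ℕ) (x y : Fin d → ℤ) : ℝ := Real.log (M / max (dsv x y) 1)

/-- The level `k` of `N`, in digits: `⌊k J / N⌋`. -/
def lev (J N k : ℕ) : ℕ := k * J / N

/-- The cap of radius `2 ^ (J - j)` of an integer vector. -/
def cap {d : ℕ} (J j : ℕ) (x : Fin d → ℤ) : Fin d → ℤ := fun k => x k / 2 ^ (J - j)

/-- The mean logarithmic angle of two copies through the same point. -/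
noncomputable def Yf {d : ℕ} {Ω : Type} [Fintype Ω] {ζ : Type} (M : ℕ) (p : Ω → ℝ) (Z : Ω → ζ)
    (v : Ω → Fin d → ℤ) (u : Ω → Fin d → ℝ) (τ : Ω → ℤ) : ℝ :=
  Ex (dbl p (av M Z v u τ)) (fun x => lvv M (v x.1) (v x.2))

/-! ### (HC) The heavy cap lemma -/

/-- (HC) For every random vector `v` and every side variable `B` there is a level `w` such that the
cap of `v` at the level `w` is nearly a function of `B, w`, and two copies of `v` which are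
conditionally independent given `B, w` and the cap have an angle of the size of the cap.
`D k ω := cap J (lev J N k) (v ω)`, `G k ω := P(|D k ω' - D k ω| ≤ 1 for all coordinates | B ω' = B ω)`,
`i k := - log G k`; `w ω` := the largest `k ≤ N` which maximises `e₀ (k / N) (J log 2) - i k ω`,
`e₀ := min ε 1 / 4`. (a) `i w ≤ e₀ (w/N) J log 2 + i 0`, `Ex (i 0) ≤ d log 3` (`D 0` has values in
`{-1, 0, 1}`: `G 0 ≥ P(D 0 | B)`, cross entropy). By `CH_le_cross` with the kernel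
`(k, x) ↦ P(|D k ω' - x| ≤ 1 | B) / (3 ^ d (N + 1))`: `CH (w, D w) B ≤ Ex (i w) + log (N+1) + d log 3`.
(b) For `k > w`: `i k - i w ≥ e₀ ((k - w)/N) J log 2`. `j := - log P(w, D w | B)`, `j ≥ i w`,
`Ex (j - i w) ≤ log (N+1) + d log 3 =: C`. A second copy given `(B, w, D w)` has `|D k ω' - D k ω| ≤ 1`
with conditional probability `≤ exp (- i k + j) = exp (-(i k - i w) + (j - i w))`. Use `k = w + 1`;
if `|D (w+1) ω' - D (w+1) ω| > 1` in some coordinate then `|v - v'| ≥ 2 ^ (J - lev J N (w+1))` and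
`lvv ≤ ((w+1)/N) J log 2`; in general `lvv ≤ J log 2` (up to the case `v = v'`, `M = 2 ^ J`).
Markov: `P(j - i w > e₀ J log 2 / (2N)) ≤ 2 N C / (e₀ J log 2)`. -/
def HCStmt : Prop :=
  ∀ (d N : ℕ), 0 < N → ∀ ε : ℝ, 0 < ε → ∃ J₀ : ℕ, ∀ J ≥ J₀, ∀ (Ω : Type) [Fintype Ω] (β : Type)
    (p : Ω → ℝ) (B : Ω → β) (v : Ω → Fin d → ℤ), (∀ ω, 0 ≤ p ω) → ∑ ω, p ω = 1 →
    (∀ ω, 0 < p ω → ∀ k, |v ω k| ≤ 2 ^ J) →
    ∃ w : Ω → ℕ, (∀ ω, w ω ≤ N) ∧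
      CH p (fun ω => cap J (lev J N (w ω)) (v ω)) (fun ω => (B ω, w ω)) ≤ ε * J ∧
      Ex (dbl p (fun ω => (B ω, w ω, cap J (lev J N (w ω)) (v ω))))
        (fun x => lvv (2 ^ J) (v x.1) (v x.2)) ≤
        Ex p (fun ω => (w ω : ℝ)) / N * (J * Real.log 2) + (1 / N + ε) * J

/-! ### Entropies of caps -/

/-- (CAP) Lower and upper bound of the entropy of the cap at a random level.
`CH v W ≤ CH w W + CH (cap, w.., W)`; `CH v (cap, w, W) ≤ d Ex log (2 · 2 ^ (J - lev) + 1)`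
(`CH_le_vec`; two vectors in the same cap differ by at most `2 ^ (J - lev)`); the cap at the level
`j` has at most `2 · 2 ^ j + 1` values per coordinate (`CH_le_card`); `CH w _ ≤ log (N + 1)`. -/
def CAPStmt : Prop :=
  ∀ (d N : ℕ), 0 < N → ∃ C : ℝ, ∀ (J : ℕ) (Ω : Type) [Fintype Ω] (β : Type) (p : Ω → ℝ)
    (W : Ω → β) (v : Ω → Fin d → ℤ) (w : Ω → ℕ), (∀ ω, 0 ≤ p ω) → ∑ ω, p ω = 1 →
    (∀ ω, 0 < p ω → ∀ k, |v ω k| ≤ 2 ^ J) → (∀ ω, w ω ≤ N) →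
    CH p v W ≤ CH p (fun ω => cap J (lev J N (w ω)) (v ω)) (fun ω => (w ω, W ω)) +
      d * ((1 - Ex p (fun ω => (w ω : ℝ)) / N) * (J * Real.log 2)) + C ∧
    CH p v W ≤ CH p (fun ω => cap J (lev J N (w ω)) (v ω)) (fun ω => (w ω, W ω)) +
      CH p v (fun ω => (cap J (lev J N (w ω)) (v ω), w ω, W ω)) + C ∧
    CH p (fun ω => cap J (lev J N (w ω)) (v ω)) (fun ω => (w ω, W ω)) ≤
      d * (Ex p (fun ω => (w ω : ℝ)) / N * (J * Real.log 2)) + C ∧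
    CH p v (fun ω => (cap J (lev J N (w ω)) (v ω), w ω, W ω)) ≤
      d * ((1 - Ex p (fun ω => (w ω : ℝ)) / N) * (J * Real.log 2)) + C

/-! ### Levels one, one plus, zero -/

/-- The constant `κ = (3a - a² - 1) / (a² + 3a - 2)`. -/
noncomputable def kp (a : ℝ) : ℝ := (3 * a - a ^ 2 - 1) / (a ^ 2 + 3 * a - 2)

/-- (L1) Level one, for all families. -/
def LevOne (d : ℕ) (a : ℝ) : Prop :=
  ∀ ε : ℝ, 0 < ε → ∃ θ : ℝ, 0 < θ ∧ ∃ J₀ : ℕ, ∀ J ≥ J₀, ∀ (Ω : Type) [Fintype Ω] (ζ : Type)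
    (p : Ω → ℝ) (Z : Ω → ζ) (v : Ω → Fin d → ℤ) (u : Ω → Fin d → ℝ) (τ : Ω → ℤ),
    IsFam (2 ^ J) p Z v u τ → Kf (2 ^ J) p (bv Z v) τ ≤ θ * J →
    CH p v Z ≤ a * Sf (2 ^ J) p Z v u τ -
      kp a * (J * Real.log 2 - Yf (2 ^ J) p Z v u τ) + ε * J

/-- (L1+) Level one plus, for all families. -/
def LevPlus (d : ℕ) (a : ℝ) : Prop :=
  ∀ ε : ℝ, 0 < ε → ∃ N : ℕ, 0 < N ∧ ∃ θ : ℝ, 0 < θ ∧ ∃ J₀ : ℕ, ∀ J ≥ J₀, ∀ (Ω : Type)
    [Fintype Ω] (ζ : Type)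
    (p : Ω → ℝ) (Z : Ω → ζ) (v : Ω → Fin d → ℤ) (u : Ω → Fin d → ℝ) (τ : Ω → ℤ),
    IsFam (2 ^ J) p Z v u τ → Kf (2 ^ J) p (bv Z v) τ ≤ θ * J →
    ∃ w : Ω → ℕ, (∀ ω, w ω ≤ N) ∧
    CH p v Z ≤ a * Sf (2 ^ J) p Z v u τ -
      kp a * ((1 - Ex p (fun ω => (w ω : ℝ)) / N) * (J * Real.log 2)) -
      (a - 1) * CH p (fun ω => cap J (lev J N (w ω)) (v ω)) (fun ω => (w ω, Z ω)) + ε * J

/-- (RED) Restriction of a family to its heavy caps. `Z⁺ := (Z, w, cap)` with `w` from (HC) for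
`B := av (2 ^ J) Z v u τ`. `IsFam` for `Z⁺` is immediate; `CH τ (v, Z⁺) ≥ CH τ (v, Z) - log (N+1)`
(given `v`, the variable `Z⁺` is a function of `Z, w`); `Yf` of the new family is the second
conclusion of (HC) up to a reordering of the variables; `Sf ≥ Sf⁺ + CH cap (w, Z) - err`:
`CH X (Z,τ) ≥ CH X (Z,τ,w) = CH (X, cap) (Z,τ,w) - CH cap (X,Z,τ,w)`, the last term `≤ ε J` by (HC);
`= CH cap (Z,τ,w) + CH X (Z,τ,w,cap) - ..`; `CH cap (Z,τ,w) ≥ CH cap (Z,w) - I(τ; v | Z, w)`,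
`I ≤ J log 2 - CH τ (v,Z,w) ≤ Kf + log (N+1)`. -/
def REDStmt : Prop :=
  ∀ (d N : ℕ), 0 < N → ∀ ε : ℝ, 0 < ε → ∃ C : ℝ, ∃ J₀ : ℕ, ∀ J ≥ J₀, ∀ (Ω : Type) [Fintype Ω]
    (ζ : Type) (p : Ω → ℝ) (Z : Ω → ζ) (v : Ω → Fin d → ℤ) (u : Ω → Fin d → ℝ) (τ : Ω → ℤ),
    IsFam (2 ^ J) p Z v u τ →
    ∃ w : Ω → ℕ, (∀ ω, w ω ≤ N) ∧
      IsFam (2 ^ J) p (fun ω => (cap J (lev J N (w ω)) (v ω), w ω, Z ω)) v u τ ∧
      Kf (2 ^ J) p (bv (fun ω => (cap J (lev J N (w ω)) (v ω), w ω, Z ω)) v) τ ≤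
        Kf (2 ^ J) p (bv Z v) τ + C ∧
      Yf (2 ^ J) p (fun ω => (cap J (lev J N (w ω)) (v ω), w ω, Z ω)) v u τ ≤
        Ex p (fun ω => (w ω : ℝ)) / N * (J * Real.log 2) + (1 / N + ε) * J ∧
      Sf (2 ^ J) p (fun ω => (cap J (lev J N (w ω)) (v ω), w ω, Z ω)) v u τ +
        CH p (fun ω => cap J (lev J N (w ω)) (v ω)) (fun ω => (w ω, Z ω)) ≤
        Sf (2 ^ J) p Z v u τ + Kf (2 ^ J) p (bv Z v) τ + ε * J + C

/-- (LPL) Level one plus, from level one, (RED) and (CAP): apply (L1) to the family of (RED);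
`1 / N + ε'` small; `0 ≤ kp a ≤ 1` for `1.6 ≤ a ≤ 1.7`. -/
def LPLStmt : Prop :=
  ∀ (d : ℕ) (a : ℝ), 1.6 ≤ a → a ≤ 1.7 → LevOne d a → LevPlus d a

/-! ### Section 5: the caps of the derived families -/

/-- (TWO) (5.2), first half: two conditionally independent times. `w ≤ N`; the positions
`X = rd (pos M u v s)` in the caps of radius `2 ^ (J - lev)`. Take `dbl p (v, w, Z)` (two copies of
`s` given `(v, w, Z)`); `CH s (v, w, Z) ≥ J log 2 - e - log (N+1)`; the cap of `v` is known up to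
`C M / |s - s'|` values per coordinate from the caps of `s, s', X(s), X(s')`:
`(s - s') / M v = X(s) - X(s') + O(1)`; `Ex ell (s, s') ≤ 2 (e + C)` (energy of a nearly uniform
time). Then `CH cap(v) (w,Z) ≤ CH cap(v) (w,Z,s,s') + 2e + C ≤ 2 CH cap(X) (cap(s), w, Z) + ..`. -/
def TWOStmt : Prop :=
  ∀ (d N : ℕ), 0 < N → ∃ C : ℝ, ∀ (J : ℕ) (Ω : Type) [Fintype Ω] (ζ : Type) (p : Ω → ℝ)
    (Z : Ω → ζ) (v : Ω → Fin d → ℤ) (u : Ω → Fin d → ℝ) (s : Ω → ℤ) (w : Ω → ℕ) (e : ℝ),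
    IsFam (2 ^ J) p Z v u s → Kf (2 ^ J) p (bv Z v) s ≤ e → (∀ ω, w ω ≤ N) →
    CH p (fun ω => cap J (lev J N (w ω)) (v ω)) (fun ω => (w ω, Z ω)) ≤
      2 * CH p (fun ω => cap J (lev J N (w ω)) (rd (pos (2 ^ J) (u ω) (v ω) (s ω))))
        (fun ω => (s ω / 2 ^ (J - lev J N (w ω)), w ω, Z ω)) + C * (e + 1)

/-- (ONC) (5.2), second half. `O = (s + c, X)`, `X = pos u v s + (c / M) v'` up to an error 2.
The cap of `C = (s, rd (pos u v s))` is known from `O`, the cap of `v'`, the cap of `s` up to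
`C (1 + |c| / M)` values per coordinate. `CH cap(X_C) (cap s, w, Z) = CH (cap s, cap X_C) (w,Z) -
CH (cap s) (w, Z)`, `CH (cap s, cap X_C) (w,Z) ≤ CH (cap s, cap X_C) (w,Z,O) + I(C; O | Z) + C`
(`w` has at most `N + 1` values), `CH (cap s, cap X_C) (w,Z,O) ≤ CH (cap s) (w,Z) + CH cap(v')
(w,Z,O) + C (G + 1)`. -/
def ONCStmt : Prop :=
  ∀ (d N : ℕ), 0 < N → ∃ C : ℝ, ∀ (J : ℕ) (Ω : Type) [Fintype Ω] (ζ : Type) (p : Ω → ℝ)
    (Z : Ω → ζ) (v v' : Ω → Fin d → ℤ) (u : Ω → Fin d → ℝ) (s c : Ω → ℤ) (X : Ω → Fin d → ℤ)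
    (w : Ω → ℕ) (G : ℝ),
    IsFam (2 ^ J) p Z v u s → (∀ ω, 0 < p ω → ∀ k, |v' ω k| ≤ 2 ^ J) → (∀ ω, w ω ≤ N) →
    (∀ ω, 0 < p ω → ∀ k,
      |(X ω k : ℝ) - (pos (2 ^ J) (u ω) (v ω) (s ω) k + (c ω : ℝ) / 2 ^ J * v' ω k)| ≤ 2) →
    Ex p (fun ω => Real.log (1 + |(c ω : ℝ)| / 2 ^ J)) ≤ G →
    CH p (fun ω => cap J (lev J N (w ω)) (rd (pos (2 ^ J) (u ω) (v ω) (s ω))))
        (fun ω => (s ω / 2 ^ (J - lev J N (w ω)), w ω, Z ω)) ≤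
      CH p (fun ω => cap J (lev J N (w ω)) (v' ω)) (fun ω => (w ω, (s ω + c ω, X ω), Z ω)) +
      (CH p (fun ω => (s ω, rd (pos (2 ^ J) (u ω) (v ω) (s ω)))) Z +
        CH p (fun ω => (s ω + c ω, X ω)) Z -
        CH p (fun ω => ((s ω, rd (pos (2 ^ J) (u ω) (v ω) (s ω))), (s ω + c ω, X ω))) Z) +
      C * (G + 1)

/-- (INF) (5.3): conditioning the cap of `v` on `Y` costs at most the information of `v` and `Y`. -/
def INFStmt : Prop :=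
  ∀ (d N : ℕ), 0 < N → ∃ C : ℝ, ∀ (J : ℕ) (Ω : Type) [Fintype Ω] (ζ υ : Type) (p : Ω → ℝ)
    (Z : Ω → ζ) (v : Ω → Fin d → ℤ) (Y : Ω → υ) (w : Ω → ℕ), (∀ ω, 0 ≤ p ω) → ∑ ω, p ω = 1 →
    (∀ ω, w ω ≤ N) →
    CH p (fun ω => cap J (lev J N (w ω)) (v ω)) (fun ω => (w ω, Z ω)) ≤
      CH p (fun ω => cap J (lev J N (w ω)) (v ω)) (fun ω => (w ω, Y ω, Z ω)) +
      (CH p v Z - CH p v (fun ω => (Y ω, Z ω))) + C

/-! ### Section 6: Kakeya sets -/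

/-- (L0) Level zero: families with nearly uniform directions. -/
def LevZero (d : ℕ) (s : ℝ) : Prop :=
  ∀ ε : ℝ, 0 < ε → ∃ θ : ℝ, 0 < θ ∧ ∃ J₀ : ℕ, ∀ J ≥ J₀, ∀ (Ω : Type) [Fintype Ω] (ζ : Type)
    (p : Ω → ℝ) (Z : Ω → ζ) (v : Ω → Fin d → ℤ) (u : Ω → Fin d → ℝ) (τ : Ω → ℤ),
    IsFam (2 ^ J) p Z v u τ → Kf (2 ^ J) p (bv Z v) τ ≤ θ * J →
    ((d : ℝ) - θ) * (J * Real.log 2) ≤ CH p v Z →
    (s - ε) * (J * Real.log 2) ≤ Sf (2 ^ J) p Z v u τ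

/-- (SEC) A random section: `l` (the line) determines `v` (the direction). First space
`Ω₁ := (V → Ω) × Ω`, `V := univ.image v`, with the product law: `R x` has the law `p (· | v = x)`
independently for `x ∈ V` (`0` if `law p v x = 0`: take then any unit mass), and `ω₀` has the law
`p`; `Y₁ (R, ω₀) := (v ω₀, l (R (v ω₀)))`, `Y₂ ω := (v ω, l ω)`: same laws; `p' := glue p₁ p Y₁ Y₂`,
`pr := Prod.snd`, `Z := fun x => l (R x)`. `Z` is independent of `v ω₀ = v (pr ..)`; given `Y₂`, the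
variable `ω` is independent of `(R, ω₀)` (`CH_glue_snd`). -/
def SECStmt : Prop :=
  ∀ (Ω : Type) [Fintype Ω] (p : Ω → ℝ), (∀ ω, 0 ≤ p ω) → ∑ ω, p ω = 1 → ∀ (S T : Type)
    (v : Ω → S) (l : Ω → T), Det p l v →
    ∃ (Ω' : Type) (_ : Fintype Ω') (p' : Ω' → ℝ) (ζ : Type) (Z : Ω' → ζ) (pr : Ω' → Ω),
      (∀ w, 0 ≤ p' w) ∧ Marg p' p pr ∧
      Det p' (fun w => (v (pr w), Z w)) (fun w => l (pr w)) ∧
      CH p' (fun w => v (pr w)) Z = H p v ∧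
      ∀ (U : Type) (X : Ω → U), CH p X l ≤ CH p' (fun w => X (pr w)) (fun w => (v (pr w), Z w))

/-- (EFR) `v := F.D J`, `l := (F.l, ..)`, `u := 2 ^ J F.u`, `τ := F.T`; (SEC) for `l := F.l`;
`rd (pos (2 ^ J) u v T)` differs from `F.X J` by at most 1 per coordinate. -/
def EFRStmt : Prop := ∀ (m : ℕ) (s : ℝ), LevZero m s → Pool.KRN.EF m s

/-- (DIM) The final theorem. -/
def DIMStmt : Prop :=
  (∀ m : ℕ, 7 ≤ m → Pool.KRN.EF m ((m + 0.28) / 1.6752)) →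
  ∀ n : ℕ, 8 ≤ n → ∀ K : Set (EuclideanSpace ℝ (Fin n)),
    (∀ e : EuclideanSpace ℝ (Fin n), ‖e‖ = 1 → ∃ x : EuclideanSpace ℝ (Fin n), ∀ t : ℝ,
      0 ≤ t → t ≤ 1 → x + t • e ∈ K) →
    ENNReal.ofReal (1 + ((n : ℝ) - 0.72) / 1.6752) ≤ dimH K

end Pool.Agent.H24.KTH
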