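import Pool.Agent.H24.KTH.Top

/-!
# KTH: generic rows for section 1 (statements)
-/

set_option autoImplicit false

namespace Pool.Agent.H24.KTH

open Finset Real
open Pool.Agent.H49.Ent Pool.Agent.H32.Dense

/-- The size of a number against `M`, on the logarithmic scale (both signs). -/
noncomputable def sz (M : ℕ) (x : ℝ) : ℝ := Real.log (1 + |x| / M) + Real.log (1 + M / max |x| 1)

/-- (EN) The energy of a nearly uniform time against a variable `x` determined by `W`.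
`CH_le_cross` with the kernel `(M C)⁻¹ (M / max |n - x| 1) ^ (1/2)` on `0 ≤ n < M`; the sum over `n`
is at most `C M` (`∑ k ≤ M, k ^ (-1/2) ≤ 2 M ^ (1/2)`, twice, plus 3 terms). -/
def ENStmt : Prop :=
  ∃ C : ℝ, ∀ (M : ℕ) (Ω : Type) [Fintype Ω] (β : Type) (q : Ω → ℝ) (W : Ω → β) (T : Ω → ℤ)
    (x : Ω → ℝ) (e : ℝ), 0 < M → (∀ ω, 0 ≤ q ω) → ∑ ω, q ω = 1 →
    (∀ ω, 0 < q ω → 0 ≤ T ω ∧ T ω < M) → Det q W x → Real.log M - e ≤ CH q T W →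
    Ex q (fun ω => Real.log (M / max |(T ω : ℝ) - x ω| 1)) ≤ 2 * e + C

/-- (VEC) An integer vector at the mean logarithmic distance `L` from a centre known from `W`.
`CH_le_tail` with `M = 1` for each coordinate of `X - ⌊F⌋`. -/
def VECStmt : Prop :=
  ∀ (d : ℕ) (Ω : Type) [Fintype Ω] (β : Type) (q : Ω → ℝ) (W : Ω → β)
    (X : Ω → Fin d → ℤ) (F : Ω → Fin d → ℝ) (L : Ω → ℝ), (∀ ω, 0 ≤ q ω) → ∑ ω, q ω = 1 →
    Det q W F → (∀ ω, 0 < q ω → ∀ k, |(X ω k : ℝ) - F ω k| ≤ L ω) →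
    CH q X W ≤ d * (2 * Ex q (fun ω => Real.log (1 + L ω)) + 10)

/-- A point `(s + c, X)` seen from a base line `(w, uw)`: it is reached from the point of the base
line at the time `s` in the direction `v`. -/
structure Pt {d : ℕ} {Ω : Type} [Fintype Ω] {ζ : Type} (M : ℕ) (q : Ω → ℝ) (Z : Ω → ζ)
    (w : Ω → Fin d → ℤ) (uw : Ω → Fin d → ℝ) (v : Ω → Fin d → ℤ) (s c : Ω → ℤ)
    (X : Ω → Fin d → ℤ) : Prop where
  fam : IsFam M q Z w uw s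
  hv : ∀ ω, 0 < q ω → ∀ k, |v ω k| ≤ M
  hX : ∀ ω, 0 < q ω → ∀ k,
    |(X ω k : ℝ) - (pos M (uw ω) (w ω) (s ω) k + (c ω : ℝ) / M * v ω k)| ≤ 2

/-- (PT3) The time `s` from the point and the two directions: `X = uw + (T / M) v + (s / M) (w - v)`
with `T = s + c`; `CH_le_int` with `L = 4 M / max |v - w| 1`; `|v - w| ≤ 2 M`. -/
def PT3Stmt : Prop :=
  ∀ (d : ℕ) (Ω : Type) [Fintype Ω] (ζ : Type) (M : ℕ) (q : Ω → ℝ) (Z : Ω → ζ)
    (w : Ω → Fin d → ℤ) (uw : Ω → Fin d → ℝ) (v : Ω → Fin d → ℤ) (s c : Ω → ℤ)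
    (X : Ω → Fin d → ℤ), Pt M q Z w uw v s c X →
    CH q s (fun ω => ((s ω + c ω, X ω), v ω, w ω, Z ω)) ≤
      Ex q (fun ω => lvv M (v ω) (w ω)) + 5

/-- (PT4) The point from the two directions: `CH (s + c) .. ≤ log M + 1.01 Ex log (1 + |s + c| / M) + 6`
(`CH_le_tail`), and given `T = s + c`, `X = uw + (T / M) v + (s / M) (w - v) + O(2)` is known up to `O(1)`
per coordinate from `⌊s · |v - w| / M⌋`, which has at most `|v - w| + 1` values. -/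
def PT4Stmt : Prop :=
  ∀ (d : ℕ), ∃ C : ℝ, ∀ (Ω : Type) [Fintype Ω] (ζ : Type) (M : ℕ) (q : Ω → ℝ) (Z : Ω → ζ)
    (w : Ω → Fin d → ℤ) (uw : Ω → Fin d → ℝ) (v : Ω → Fin d → ℤ) (s c : Ω → ℤ)
    (X : Ω → Fin d → ℤ), Pt M q Z w uw v s c X →
    CH q (fun ω => (s ω + c ω, X ω)) (fun ω => (v ω, w ω, Z ω)) ≤
      2 * Real.log M - Ex q (fun ω => lvv M (v ω) (w ω)) + C * (Ex q (fun ω => sz M (c ω)) + 1)

/-- (PT5) The direction `v` from the two points: `v = (M / c) (X - rd pos)` up to `4 M / max |c| 1`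
(`gap_le`, `CH_le_vec`). -/
def PT5Stmt : Prop :=
  ∀ (d : ℕ), ∃ C : ℝ, ∀ (Ω : Type) [Fintype Ω] (ζ : Type) (M : ℕ) (q : Ω → ℝ) (Z : Ω → ζ)
    (w : Ω → Fin d → ℤ) (uw : Ω → Fin d → ℝ) (v : Ω → Fin d → ℤ) (s c : Ω → ℤ)
    (X : Ω → Fin d → ℤ), Pt M q Z w uw v s c X →
    CH q v (fun ω => ((s ω + c ω, X ω), (s ω, rd (pos M (uw ω) (w ω) (s ω))), Z ω)) ≤
      C * (Ex q (fun ω => sz M (c ω)) + 1)

/-- (PT7) The direction `v` from the point and the base line. `W' := X - pos uw w (s + c)` is known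
up to `O(1)` and `W' = (c / M) (v - w) + O(2)`. Insert `i` (a coordinate where `|v - w|` is maximal,
`d` values) and the dyadic size of `|v - w|` (`J + 2` values), then `(v - w) i` (entropy at most
`Ex log (2 |v - w| + 1) + C` by `CH_le_card`); then `(v - w) j = (v - w) i · W' j / W' i` up to
`C M / max |c| 1` if `|W' i| ≥ 8`, and `|v - w| ≤ C M / max |c| 1` otherwise; use (VEC). -/
def PT7Stmt : Prop :=
  VECStmt → ∀ (d : ℕ), ∃ C : ℝ, ∀ (Ω : Type) [Fintype Ω] (ζ : Type) (J : ℕ) (q : Ω → ℝ) (Z : Ω → ζ)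
    (w : Ω → Fin d → ℤ) (uw : Ω → Fin d → ℝ) (v : Ω → Fin d → ℤ) (s c : Ω → ℤ)
    (X : Ω → Fin d → ℤ), Pt (2 ^ J) q Z w uw v s c X →
    CH q v (fun ω => ((s ω + c ω, X ω), w ω, Z ω)) ≤
      J * Real.log 2 - Ex q (fun ω => lvv (2 ^ J) (v ω) (w ω)) + Real.log (J + 2) +
        C * (Ex q (fun ω => sz (2 ^ J) (c ω)) + 1)

/-- (KK) The only use of `KP 1` (`Pool.KAL.KP1.kp_one`). `i` := a coordinate where `|v - w|` is
maximal, `b` := dyadic size of `|v - w|` (`2 ^ (b - 1) ≤ |v - w| < 2 ^ b`, `b = 0` if `v = w`),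
`E` := `(v - w) / (v - w)_i` rounded to multiples of `2 ^ (-b)`, `h := ⌊T / M⌋`, `T := s + c`,
`Z' := (Z, w, i, b, E, h)`. Scalar family (`Pool.KA.Fam 1 (J + 1)` or `Fam 1 J` with halved
direction): direction `g = (v - w)_i`, position at the time `T' = T - h M`:
`((T - s) / M) g = ((h M - s) / M) g + (T' / M) g`. `KP 1`:
`CH g Z' ≤ CH (x(T)) (T', Z') + ε J`, because `CH T' (g, s, Z') ≥ CH T (s,v,w,Z) - CH h _`.
`v` is known from `(Z', g)` up to `O(1)`. `X_i = pos uw w T i + x(T) + O(2)`, so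
`CH (T, X) Z' ≥ J log 2 + CH v Z' - err`. `CH (T,X) (v,s,Z') ≤ J log 2 + err`. So
`CH (v,s) ((T,X), Z') = CH (v,s) Z' + CH (T,X) (v,s,Z') - CH (T,X) Z' ≤ CH s (v,Z') + err ≤
CH s (v,w,Z) + err`. Finally `CH Z' ((T,X), w, Z) ≤ err`: `i`: `log d`, `b`: `log (J + 2)`, `h` is a
function of `T`; `2 ^ b E` is known up to `C M / max |c| 1` per coordinate from
`X - pos uw w T = (c / M) (v - w) + O(2)`, `i`, `b` (as in (PT7)). -/
def KKStmt : Prop :=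
  Pool.KA.KP 1 → ∀ (d : ℕ) (ε : ℝ), 0 < ε → ∃ θ : ℝ, 0 < θ ∧ ∃ J₀ : ℕ, ∀ J ≥ J₀,
    ∀ (Ω : Type) [Fintype Ω] (ζ : Type) (q : Ω → ℝ) (Z : Ω → ζ)
    (w : Ω → Fin d → ℤ) (uw : Ω → Fin d → ℝ) (v : Ω → Fin d → ℤ) (s c : Ω → ℤ)
    (X : Ω → Fin d → ℤ), Pt (2 ^ J) q Z w uw v s c X →
    J * Real.log 2 - θ * J ≤ CH q (fun ω => s ω + c ω) (fun ω => (s ω, v ω, w ω, Z ω)) →
    Ex q (fun ω => sz (2 ^ J) (c ω)) ≤ θ * J →
    CH q (fun ω => (v ω, s ω)) (fun ω => ((s ω + c ω, X ω), w ω, Z ω)) ≤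
      CH q s (fun ω => (v ω, w ω, Z ω)) + ε * J

/-- (CHO) A chord. Line `(w, uw)`, times `a b τ`, direction `v`, displacements `c` (at `a`) and
`c' = ⌊kap a b τ * c⌋` (at `b`). With `κ = kap a b τ`, `h = hat a b τ`:
`b + c' = h + κ (a + c - h) + O(1)`, `pos b = (1 - κ) (pos τ + ((h - τ) / M) w) + κ pos a`
(`pos_lin`), so `X = (1 - κ) X_A + κ X_B + O(C (1 + |κ|))`. Centre for (VEC):
`X_A + κ' (X_B - X_A)`, `κ' = (b + c' - τ) / (a + c - τ)` (`0` if `a + c = τ`);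
`|κ - κ'| ≤ C (1 + |κ|) / max |a + c - τ| 1`, `|X_B - X_A| ≤ C (M + |c|)`. -/
def CHOStmt : Prop :=
  VECStmt → ∀ (d : ℕ), ∃ C : ℝ, ∀ (Ω : Type) [Fintype Ω] (ζ : Type) (M : ℕ) (q : Ω → ℝ) (Z : Ω → ζ)
    (w : Ω → Fin d → ℤ) (uw : Ω → Fin d → ℝ) (v : Ω → Fin d → ℤ) (a b τ c c' : Ω → ℤ)
    (XB X : Ω → Fin d → ℤ), Pt M q Z w uw v a c XB → Pt M q Z w uw v b c' X →
    (∀ ω, 0 < q ω → 0 ≤ τ ω ∧ τ ω < M) → (∀ ω, c' ω = ⌊kap (a ω) (b ω) (τ ω) * (c ω : ℝ)⌋) →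
    CH q X (fun ω => ((τ ω, rd (pos M (uw ω) (w ω) (τ ω))), (a ω + c ω, XB ω), b ω + c' ω)) ≤
      C * (Ex q (fun ω => sz M (c ω)) + Ex q (fun ω => sz M ((a ω : ℝ) + c ω - τ ω)) +
        Ex q (fun ω => Real.log (1 + |kap (a ω) (b ω) (τ ω)|)) + 1)

/-- (TIA) Three elementary facts on times: `a b τ` in `[0, M)`, `c' = ⌊kap a b τ * c⌋`.
(1) `τ` from `(c', c, a, b)`: `|τ^ - τ'^| ≤ |τ^ - a| |τ'^ - a| / (|a - b| |c|)` where `τ^ = hat a b τ`.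
(2) `c` from `(c', a, b, τ)` (`floor_eq_close`).
(3) `b` from `(b + c', a, τ, c)`: with `h = hat a b τ`, `b = h - κ (h - a)`, `b + c' = h + κ (a + c - h)
+ O(1)`; centre `τ - κ' (τ - a)`, `κ' = (b + c' - τ) / (a + c - τ)`, as in (CHO); use (VEC), `d = 1`. -/
def TIAStmt : Prop :=
  VECStmt → ∃ C : ℝ, ∀ (Ω : Type) [Fintype Ω] (M : ℕ) (q : Ω → ℝ) (a b τ c c' : Ω → ℤ), 0 < M →
    (∀ ω, 0 ≤ q ω) → ∑ ω, q ω = 1 →
    (∀ ω, 0 < q ω → 0 ≤ a ω ∧ a ω < M) → (∀ ω, 0 < q ω → 0 ≤ b ω ∧ b ω < M) →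
    (∀ ω, 0 < q ω → 0 ≤ τ ω ∧ τ ω < M) → (∀ ω, c' ω = ⌊kap (a ω) (b ω) (τ ω) * (c ω : ℝ)⌋) →
    CH q τ (fun ω => (c' ω, c ω, a ω, b ω)) ≤
      C * (Ex q (fun ω => ell M (a ω) (b ω)) + Ex q (fun ω => sz M (c ω)) + 1) ∧
    CH q c (fun ω => (c' ω, a ω, b ω, τ ω)) ≤
      C * (Ex q (fun ω => Real.log (1 + |kap (a ω) (b ω) (τ ω)|⁻¹)) + 1) ∧
    CH q b (fun ω => (b ω + c' ω, a ω, τ ω, c ω)) ≤
      C * (Ex q (fun ω => sz M ((a ω : ℝ) + c ω - τ ω)) +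
        Ex q (fun ω => Real.log (1 + |kap (a ω) (b ω) (τ ω)|)) + 1)

/-- (AKA) The inequality of H32 with the exponent `1.6752`, for every dimension: iterate
`akd_of_akg` (with `ε = 1`) and `step_gen` from `level0G`, as in `H53.Dns.akg_iter` without the bound
for `lam` (`alpha_bounds`: `α < 1.6752`; `AKD` is monotone in `a` up to `B`: `Sf ≥ 0`). -/
def AKAStmt : Prop := ∀ d : ℕ, ∃ lam B : ℝ, 0 ≤ lam ∧ AKD d 1.6752 lam B

end Pool.Agent.H24.KTH
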