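import Pool.Agent.H24.KTH.Top

/-!
# Row CAP: entropies of caps at a random level
-/

set_option autoImplicit false

namespace Pool.Agent.H24.KTH

open Finset Real
open Pool.Agent.H49.Ent Pool.Agent.H32.Dense

namespace Cap24

lemma lev_le {J N k : ℕ} (hN : 0 < N) (hk : k ≤ N) : lev J N k ≤ J := by
  unfold lev
  exact Nat.div_le_of_le_mul (by nlinarith [Nat.mul_le_mul_right J hk])

lemma lev_real_le (J N k : ℕ) : (lev J N k : ℝ) ≤ k * J / N := by
  unfold lev
  have := @Nat.cast_div_le ℝ _ _ _ (k * J) N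
  push_cast at this
  exact this

lemma lev_real_ge {J N k : ℕ} (hN : 0 < N) : (k * J / N : ℝ) - 1 ≤ (lev J N k : ℝ) := by
  unfold lev
  have hN' : (0 : ℝ) < N := by exact_mod_cast hN
  have h1 : k * J < N * (k * J / N + 1) := by
    have := Nat.lt_mul_div_succ (k * J) hN
    simpa [Nat.succ_eq_add_one] using this
  have h2 : (k : ℝ) * J < N * ((k * J / N : ℕ) + 1) := by exact_mod_cast h1
  have h3 : (k * J / N : ℝ) < ((k * J / N : ℕ) : ℝ) + 1 := by
    rw [div_lt_iff₀ hN']
    linarith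
  linarith

/-- The number of values of a coordinate of a cap. -/
lemma cap_mem {d J j : ℕ} (hj : j ≤ J) {x : Fin d → ℤ} (hx : ∀ k, |x k| ≤ 2 ^ J) :
    cap J j x ∈ Fintype.piFinset (fun _ : Fin d => Finset.Icc (-(2 ^ j : ℤ)) (2 ^ j)) := by
  rw [Fintype.mem_piFinset]
  intro k
  rw [Finset.mem_Icc]
  have h := abs_le.mp (hx k)
  have hp : (0 : ℤ) < 2 ^ (J - j) := by positivity
  have e : (2 : ℤ) ^ J = 2 ^ j * 2 ^ (J - j) := by
    rw [← pow_add, Nat.add_sub_cancel' hj]
  constructor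
  · unfold cap
    rw [Int.le_ediv_iff_mul_le hp]
    linarith [h.1]
  · unfold cap
    refine Int.ediv_le_of_le_mul hp ?_
    linarith [h.2]

lemma card_box (d j : ℕ) :
    (Fintype.piFinset (fun _ : Fin d => Finset.Icc (-(2 ^ j : ℤ)) (2 ^ j))).card =
      (2 * 2 ^ j + 1) ^ d := by
  rw [Fintype.card_piFinset]
  simp only [Int.card_Icc, Finset.prod_const, Finset.card_univ, Fintype.card_fin]
  congr 1
  have : (2 ^ j + 1 - -(2 ^ j) : ℤ) = ((2 * 2 ^ j + 1 : ℕ) : ℤ) := by push_cast; ring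
  rw [this, Int.toNat_natCast]

lemma log_pow_le (j : ℕ) : Real.log (2 * 2 ^ j + 1) ≤ j * Real.log 2 + Real.log 3 := by
  have h1 : (1 : ℝ) ≤ 2 ^ j := one_le_pow₀ (by norm_num)
  calc Real.log (2 * 2 ^ j + 1) ≤ Real.log (2 ^ j * 3) :=
        Real.log_le_log (by positivity) (by linarith)
    _ = j * Real.log 2 + Real.log 3 := by
        rw [Real.log_mul (by positivity) (by norm_num), Real.log_pow]

/-- Two vectors in the same cap. -/
lemma cap_eq {d J j : ℕ} {x y : Fin d → ℤ} (h : cap J j x = cap J j y) (k : Fin d) :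
    |((x k - y k : ℤ) : ℝ)| ≤ 2 ^ (J - j) := by
  have hp : (0 : ℤ) < 2 ^ (J - j) := by positivity
  have e : x k / 2 ^ (J - j) = y k / 2 ^ (J - j) := congrFun h k
  have h1 := Int.emod_nonneg (x k) hp.ne'
  have h2 := Int.emod_lt_of_pos (x k) hp
  have h3 := Int.emod_nonneg (y k) hp.ne'
  have h4 := Int.emod_lt_of_pos (y k) hp
  have h5 := Int.emod_add_mul_ediv (x k) (2 ^ (J - j))
  have h6 := Int.emod_add_mul_ediv (y k) (2 ^ (J - j))
  rw [e] at h5
  have h7 : |x k - y k| ≤ 2 ^ (J - j) := by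
    rw [abs_le]
    constructor <;> linarith
  have h8 : ((|x k - y k| : ℤ) : ℝ) ≤ ((2 ^ (J - j) : ℤ) : ℝ) := by exact_mod_cast h7
  rw [Int.cast_abs] at h8
  refine h8.trans (le_of_eq ?_)
  push_cast
  rfl

end Cap24

open Cap24

/-- **CAP**. -/
theorem cap_thm : CAPStmt := by
  intro d N hN
  have hl2 : 0 ≤ Real.log 2 := Real.log_nonneg (by norm_num)
  have hl3 : 0 ≤ Real.log 3 := Real.log_nonneg (by norm_num)
  have hlN : 0 ≤ Real.log ((N + 1 : ℕ) : ℝ) := Real.log_natCast_nonneg _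
  have hN' : (0 : ℝ) < N := by exact_mod_cast hN
  have hd : (0 : ℝ) ≤ d := Nat.cast_nonneg d
  refine ⟨d * (Real.log 2 + Real.log 3) + Real.log ((N + 1 : ℕ) : ℝ), ?_⟩
  intro J Ω _ β p W v w hp h1 hv hw
  set D : Ω → Fin d → ℤ := fun ω => cap J (lev J N (w ω)) (v ω) with hD
  -- (a)
  have a0 : CH p w W ≤ Real.log ((N + 1 : ℕ) : ℝ) := by
    have h := CH_le_card hp h1 w W (fun _ => Finset.range (N + 1)) (fun ω _ => by
      rw [Finset.mem_range]
      have := hw ω
      omega)
    refine h.trans (le_of_eq ?_)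
    rw [Ex_const h1, Finset.card_range]
  -- (c)
  have a3 : CH p D (fun ω => (w ω, W ω)) ≤
      d * (Ex p (fun ω => (w ω : ℝ)) / N * (J * Real.log 2)) + d * Real.log 3 := by
    have h := CH_le_card hp h1 D (fun ω => (w ω, W ω)) (fun x =>
      Fintype.piFinset (fun _ : Fin d => Finset.Icc (-(2 ^ lev J N x.1 : ℤ)) (2 ^ lev J N x.1)))
      (fun ω hω => cap_mem (lev_le hN (hw ω)) (hv ω hω))
    refine h.trans ?_
    have h2 : Ex p (fun ω => Real.log ((Fintype.piFinset (fun _ : Fin d =>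
        Finset.Icc (-(2 ^ lev J N (w ω) : ℤ)) (2 ^ lev J N (w ω)))).card)) ≤
        Ex p (fun ω => (d * (J * Real.log 2) / N) * (w ω : ℝ) + d * Real.log 3) := by
      refine Ex_mono hp fun ω _ => ?_
      rw [card_box]
      push_cast
      rw [Real.log_pow]
      have e1 := log_pow_le (lev J N (w ω))
      have e2 := lev_real_le J N (w ω)
      have e3 : (lev J N (w ω) : ℝ) * Real.log 2 ≤ (w ω : ℝ) * J / N * Real.log 2 :=
        mul_le_mul_of_nonneg_right e2 hl2
      have e4 : (d : ℝ) * Real.log (2 * 2 ^ lev J N (w ω) + 1) ≤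
          d * ((w ω : ℝ) * J / N * Real.log 2 + Real.log 3) :=
        mul_le_mul_of_nonneg_left (by linarith) hd
      refine e4.trans (le_of_eq ?_)
      field_simp
    refine h2.trans (le_of_eq ?_)
    rw [Ex_add, Ex_smul, Ex_const h1]
    field_simp
  -- (d)
  have a4 : CH p v (fun ω => (D ω, w ω, W ω)) ≤
      d * ((1 - Ex p (fun ω => (w ω : ℝ)) / N) * (J * Real.log 2)) +
        d * (Real.log 2 + Real.log 3) := by
    have h := CH_le_vec hp h1 v (fun ω => (D ω, w ω, W ω)) (fun ω => 2 ^ (J - lev J N (w ω)))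
      (fun ω ω' _ _ e k => by
        simp only [Prod.mk.injEq] at e
        obtain ⟨e1, e2, -⟩ := e
        refine cap_eq (j := lev J N (w ω)) ?_ k
        have := e1
        simp only [hD] at this
        rw [this, e2])
    refine h.trans ?_
    have h2 : Ex p (fun ω => Real.log (2 * 2 ^ (J - lev J N (w ω)) + 1)) ≤
        Ex p (fun ω => (-(J * Real.log 2) / N) * (w ω : ℝ) +
          (J * Real.log 2 + (Real.log 2 + Real.log 3))) := by
      refine Ex_mono hp fun ω _ => ?_
      have e1 := log_pow_le (J - lev J N (w ω))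
      have e2 := lev_real_ge (J := J) (k := w ω) hN
      have e3 : ((J - lev J N (w ω) : ℕ) : ℝ) = J - lev J N (w ω) :=
        Nat.cast_sub (lev_le hN (hw ω))
      rw [e3] at e1
      have e4 : ((J : ℝ) - lev J N (w ω)) * Real.log 2 ≤
          ((J : ℝ) - ((w ω : ℝ) * J / N - 1)) * Real.log 2 :=
        mul_le_mul_of_nonneg_right (by linarith) hl2
      have e5 : ((J : ℝ) - ((w ω : ℝ) * J / N - 1)) * Real.log 2 + Real.log 3 =
          (-(J * Real.log 2) / N) * (w ω : ℝ) +
          (J * Real.log 2 + (Real.log 2 + Real.log 3)) := by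
        field_simp
        ring
      linarith
    have h3 := mul_le_mul_of_nonneg_left h2 hd
    refine h3.trans (le_of_eq ?_)
    rw [Ex_add, Ex_smul, Ex_const h1]
    field_simp
    ring
  -- (b)
  have a2 : CH p v W ≤ CH p D (fun ω => (w ω, W ω)) + CH p v (fun ω => (D ω, w ω, W ω)) +
      Real.log ((N + 1 : ℕ) : ℝ) := by
    have b1 := CH_le_add hp v w W
    have b2 := CH_le_add hp v D (fun ω => (w ω, W ω))
    linarith
  have n1 : 0 ≤ (d : ℝ) * (Real.log 2 + Real.log 3) := by positivity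
  have n2 : 0 ≤ (d : ℝ) * Real.log 2 := by positivity
  have n3 : (d : ℝ) * (Real.log 2 + Real.log 3) = d * Real.log 2 + d * Real.log 3 := by ring
  refine ⟨?_, ?_, ?_, ?_⟩
  · linarith
  · linarith
  · linarith
  · linarith

end Pool.Agent.H24.KTH
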