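import Pool.Agent.H24.KTH.Geo

/-!
# KTH: the configuration of three lines (definitions and statements of sections 1 - 3)
-/

set_option autoImplicit false

namespace Pool.Agent.H24.KTH

open Finset Real
open Pool.Agent.H49.Ent Pool.Agent.H32.Dense

/-- Data of a configuration of three lines. The lines 0, 1 cross at the time `t`, the lines 0, 2 at
the time `s`; `t₁` is a third time of the line 0, `r` a time of the line 1, `tr, ta` are times of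
the line 2. -/
structure KC (d J : ℕ) : Type 1 where
  /-- sample space -/
  Ω : Type
  /-- finite -/
  fin : Fintype Ω
  /-- side information: type -/
  ζ : Type
  /-- law -/
  q : Ω → ℝ
  /-- side information -/
  Z : Ω → ζ
  v₀ : Ω → Fin d → ℤ
  v₁ : Ω → Fin d → ℤ
  v₂ : Ω → Fin d → ℤ
  u₀ : Ω → Fin d → ℝ
  u₁ : Ω → Fin d → ℝ
  u₂ : Ω → Fin d → ℝ
  t : Ω → ℤ
  s : Ω → ℤ
  t₁ : Ω → ℤ
  r : Ω → ℤ
  tr : Ω → ℤ
  ta : Ω → ℤ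

attribute [instance] KC.fin

variable {d J : ℕ}

/-- `log M`, `M = 2 ^ J`. -/
noncomputable def lg (J : ℕ) : ℝ := J * Real.log 2

namespace KC

/-- The rounded position of the line `(u, v)` at the time `x`, with the time. -/
noncomputable def pt (_K : KC d J) (u : Fin d → ℝ) (v : Fin d → ℤ) (x : ℤ) : ℤ × (Fin d → ℤ) :=
  (x, rd (pos (2 ^ J) u v x))

noncomputable def P (K : KC d J) (w : K.Ω) : ℤ × (Fin d → ℤ) := K.pt (K.u₀ w) (K.v₀ w) (K.t w)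
noncomputable def C (K : KC d J) (w : K.Ω) : ℤ × (Fin d → ℤ) := K.pt (K.u₀ w) (K.v₀ w) (K.s w)
noncomputable def A (K : KC d J) (w : K.Ω) : ℤ × (Fin d → ℤ) := K.pt (K.u₀ w) (K.v₀ w) (K.t₁ w)
noncomputable def B (K : KC d J) (w : K.Ω) : ℤ × (Fin d → ℤ) := K.pt (K.u₁ w) (K.v₁ w) (K.r w)
noncomputable def C₂ (K : KC d J) (w : K.Ω) : ℤ × (Fin d → ℤ) := K.pt (K.u₂ w) (K.v₂ w) (K.tr w)
noncomputable def A₂ (K : KC d J) (w : K.Ω) : ℤ × (Fin d → ℤ) := K.pt (K.u₂ w) (K.v₂ w) (K.ta w)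

/-- The displacement `c`. -/
noncomputable def c (K : KC d J) (w : K.Ω) : ℤ := ct (K.t w) (K.s w) (K.t₁ w) (K.r w)

/-- The point `O`, without its time. -/
noncomputable def X (K : KC d J) (w : K.Ω) : Fin d → ℤ :=
  xf (2 ^ J) (K.u₀ w) (K.v₀ w) (K.s w) (K.c w) (K.v₁ w)

/-- The point `O` of the chord `A B`. -/
noncomputable def O (K : KC d J) (w : K.Ω) : ℤ × (Fin d → ℤ) := (K.s w + K.c w, K.X w)

/-- The second displacement. -/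
noncomputable def c₂ (K : KC d J) (w : K.Ω) : ℤ :=
  ⌊kap (K.s w) (K.tr w) (K.ta w) * (K.c w : ℝ)⌋

/-- The point `Y` of the chord `A₂ O`. -/
noncomputable def Y (K : KC d J) (w : K.Ω) : ℤ × (Fin d → ℤ) :=
  (K.tr w + K.c₂ w, xf (2 ^ J) (K.u₂ w) (K.v₂ w) (K.tr w) (K.c₂ w) (K.v₁ w))

/-- The three directions. -/
def V (K : KC d J) (w : K.Ω) : (Fin d → ℤ) × (Fin d → ℤ) × (Fin d → ℤ) := (K.v₀ w, K.v₁ w, K.v₂ w)

/-- `E log (M / |v₁ - v₀|)` -/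
noncomputable def y01 (K : KC d J) : ℝ := Ex K.q (fun w => lvv (2 ^ J) (K.v₁ w) (K.v₀ w))

/-- `E log (M / |v₁ - v₂|)` -/
noncomputable def y12 (K : KC d J) : ℝ := Ex K.q (fun w => lvv (2 ^ J) (K.v₁ w) (K.v₂ w))

/-- `x^ = H(O)` -/
noncomputable def xh (K : KC d J) : ℝ := CH K.q K.O K.Z
/-- `y^ = H(Y)` -/
noncomputable def yh (K : KC d J) : ℝ := CH K.q K.Y K.Z
/-- `m^ = H(A, B)` -/
noncomputable def mh (K : KC d J) : ℝ := CH K.q (fun w => (K.A w, K.B w)) K.Z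
/-- `eta1 = H(v₀ | v₁, O)` -/
noncomputable def et1 (K : KC d J) : ℝ := CH K.q K.v₀ (fun w => (K.v₁ w, K.O w, K.Z w))
/-- `eta = H(v₁ | v₂, Y)` -/
noncomputable def et (K : KC d J) : ℝ := CH K.q K.v₁ (fun w => (K.v₂ w, K.Y w, K.Z w))
/-- `q = H(s | v₁, v₂)` -/
noncomputable def qh (K : KC d J) : ℝ := CH K.q K.s (fun w => (K.v₁ w, K.v₂ w, K.Z w))
/-- `rho = H(t | v₁, C₂)` -/
noncomputable def rh (K : KC d J) : ℝ := CH K.q K.t (fun w => (K.v₁ w, K.C₂ w, K.Z w))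
/-- `xi = H(O | A₂, Y)` -/
noncomputable def xi (K : KC d J) : ℝ := CH K.q K.O (fun w => (K.A₂ w, K.Y w, K.Z w))

/-- The family `F_L`: line 1, given `O`, time `r`. -/
noncomputable def LL (K : KC d J) : ℝ := CH K.q K.v₁ (fun w => (K.O w, K.Z w))
noncomputable def SL (K : KC d J) : ℝ :=
  Sf (2 ^ J) K.q (fun w => (K.O w, K.Z w)) K.v₁ K.u₁ K.r

/-- The family `F_I`: line 2, given `Y`, time `ta`. -/
noncomputable def LI (K : KC d J) : ℝ := CH K.q K.v₂ (fun w => (K.Y w, K.Z w))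
noncomputable def SI (K : KC d J) : ℝ :=
  Sf (2 ^ J) K.q (fun w => (K.Y w, K.Z w)) K.v₂ K.u₂ K.ta

/-- The properties of the configuration of a family with `H(v | Z) = L`, `H(τ, position | Z) = sb` and
deficit `e` of the times. -/
structure Ok (K : KC d J) (L sb e : ℝ) : Prop where
  f0t : IsFam (2 ^ J) K.q K.Z K.v₀ K.u₀ K.t
  f0s : IsFam (2 ^ J) K.q K.Z K.v₀ K.u₀ K.s
  f0a : IsFam (2 ^ J) K.q K.Z K.v₀ K.u₀ K.t₁
  f1t : IsFam (2 ^ J) K.q K.Z K.v₁ K.u₁ K.t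
  f1r : IsFam (2 ^ J) K.q K.Z K.v₁ K.u₁ K.r
  f2s : IsFam (2 ^ J) K.q K.Z K.v₂ K.u₂ K.s
  f2r : IsFam (2 ^ J) K.q K.Z K.v₂ K.u₂ K.tr
  f2a : IsFam (2 ^ J) K.q K.Z K.v₂ K.u₂ K.ta
  cross01 : ∀ w, 0 < K.q w →
    rd (pos (2 ^ J) (K.u₀ w) (K.v₀ w) (K.t w)) = rd (pos (2 ^ J) (K.u₁ w) (K.v₁ w) (K.t w))
  cross02 : ∀ w, 0 < K.q w →
    rd (pos (2 ^ J) (K.u₀ w) (K.v₀ w) (K.s w)) = rd (pos (2 ^ J) (K.u₂ w) (K.v₂ w) (K.s w))
  he : 0 ≤ e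
  us : lg J - e ≤ CH K.q K.s (fun w => ((K.v₀ w, K.v₁ w), K.t w, K.Z w))
  ut : lg J - e ≤ CH K.q K.t₁ (fun w => (K.V w, K.t w, K.s w, K.Z w))
  ur : lg J - e ≤ CH K.q K.r (fun w => (K.V w, K.t w, K.s w, K.t₁ w, K.Z w))
  utr : lg J - e ≤ CH K.q K.tr (fun w => (K.V w, K.t w, K.s w, K.t₁ w, K.r w, K.Z w))
  uta : lg J - e ≤ CH K.q K.ta (fun w => (K.V w, K.t w, K.s w, K.t₁ w, K.r w, K.tr w, K.Z w))
  L0 : CH K.q K.v₀ K.Z = L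
  L1 : CH K.q K.v₁ K.Z = L
  L2 : CH K.q K.v₂ K.Z = L
  c01 : 2 * L + 2 * lg J - 2 * e - sb ≤ CH K.q (fun w => ((K.v₀ w, K.v₁ w), K.t w)) K.Z
  c012 : 3 * L + 4 * lg J - 4 * e - 2 * sb ≤ CH K.q (fun w => (K.V w, K.t w, K.s w)) K.Z
  c1 : L + lg J - e - sb ≤ CH K.q K.v₁ (fun w => (K.P w, K.C₂ w, K.Z w))
  sP : CH K.q K.P K.Z ≤ sb
  sC : CH K.q K.C K.Z ≤ sb
  sA : CH K.q K.A K.Z ≤ sb
  sB : CH K.q K.B K.Z ≤ sb
  sC2 : CH K.q K.C₂ K.Z ≤ sb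
  sA2 : CH K.q K.A₂ K.Z ≤ sb
  sym : CH K.q (fun w => (K.P w, K.C₂ w)) K.Z = K.mh

end KC

/-- The configuration of a family (`pC` of `H32/Dense/Conf`). -/
noncomputable def KC.of (J : ℕ) {d : ℕ} {Ω : Type} [Fintype Ω] {ζ : Type} (p : Ω → ℝ) (Z : Ω → ζ)
    (v : Ω → Fin d → ℤ) (u : Ω → Fin d → ℝ) (τ : Ω → ℤ) : KC d J where
  Ω := (((Ω × Ω) × Ω) × (Ω × Ω)) × ((Ω × Ω) × Ω)
  fin := inferInstance
  ζ := ζ
  q := pC (2 ^ J) p Z v u τ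
  Z := fun w => Z w.1.1.1.1
  v₀ := fun w => v w.1.1.1.1
  v₁ := fun w => v w.1.2.1
  v₂ := fun w => v w.2.1.1
  u₀ := fun w => u w.1.1.1.1
  u₁ := fun w => u w.1.2.1
  u₂ := fun w => u w.2.1.1
  t := fun w => τ w.1.1.1.1
  s := fun w => τ w.1.1.1.2
  t₁ := fun w => τ w.1.1.2
  r := fun w => τ w.1.2.2
  tr := fun w => τ w.2.1.2
  ta := fun w => τ w.2.2

/-- (MRG) The configuration of a family has all the properties. `tri`, `dbl`, `glue` of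
`H32/Dense/{Conf, Marg}`: `CH_glue_snd`, `CH_tri_3`, `pC_02` (for `sym`), see
`H36/Dense/Q2`, `H70/Dense/Q3` (`pP_cfg`, `pC_cfg`) for the style. -/
def MRGStmt : Prop :=
  ∀ (d J : ℕ) (Ω : Type) [Fintype Ω] (ζ : Type) (p : Ω → ℝ) (Z : Ω → ζ) (v : Ω → Fin d → ℤ)
    (u : Ω → Fin d → ℝ) (τ : Ω → ℤ), IsFam (2 ^ J) p Z v u τ →
    (KC.of J p Z v u τ).Ok (CH p v Z)
      (CH p (fun ω => (τ ω, rd (pos (2 ^ J) (u ω) (v ω) (τ ω)))) Z) (Kf (2 ^ J) p (bv Z v) τ) ∧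
    (KC.of J p Z v u τ).y01 = Yf (2 ^ J) p Z v u τ

/-! ### Formats -/

/-- `F ≤ C (e + 1)` for all configurations. -/
def Lin (d : ℕ) (F : ∀ (J : ℕ), KC d J → ℝ → ℝ → ℝ) : Prop :=
  ∃ C : ℝ, ∀ (J : ℕ) (K : KC d J) (L sb e : ℝ), K.Ok L sb e → F J K L sb ≤ C * (e + 1)

/-- `F ≤ ε J` for all configurations with `e ≤ θ J`, `J ≥ J₀`. -/
def Small (d : ℕ) (F : ∀ (J : ℕ), KC d J → ℝ → ℝ → ℝ) : Prop :=
  ∀ ε : ℝ, 0 < ε → ∃ θ : ℝ, 0 < θ ∧ ∃ J₀ : ℕ, ∀ J ≥ J₀, ∀ (K : KC d J) (L sb e : ℝ),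
    K.Ok L sb e → e ≤ θ * J → F J K L sb ≤ ε * J

theorem Lin.add {d : ℕ} {F G : ∀ (J : ℕ), KC d J → ℝ → ℝ → ℝ} (hF : Lin d F) (hG : Lin d G) :
    Lin d (fun J K L sb => F J K L sb + G J K L sb) := by
  obtain ⟨C, hC⟩ := hF
  obtain ⟨D, hD⟩ := hG
  refine ⟨C + D, fun J K L sb e h => ?_⟩
  have h1 := hC J K L sb e h
  have h2 := hD J K L sb e h
  linarith

theorem Lin.mono {d : ℕ} {F G : ∀ (J : ℕ), KC d J → ℝ → ℝ → ℝ} (hF : Lin d F)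
    (h : ∀ (J : ℕ) (K : KC d J) (L sb e : ℝ), K.Ok L sb e → G J K L sb ≤ F J K L sb) :
    Lin d G := by
  obtain ⟨C, hC⟩ := hF
  exact ⟨C, fun J K L sb e hK => (h J K L sb e hK).trans (hC J K L sb e hK)⟩

theorem Lin.smul {d : ℕ} {F : ∀ (J : ℕ), KC d J → ℝ → ℝ → ℝ} (hF : Lin d F) {a : ℝ} (ha : 0 ≤ a) :
    Lin d (fun J K L sb => a * F J K L sb) := by
  obtain ⟨C, hC⟩ := hF
  refine ⟨a * C, fun J K L sb e h => ?_⟩
  have h1 := mul_le_mul_of_nonneg_left (hC J K L sb e h) ha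
  linarith

theorem Lin.const (d : ℕ) (a : ℝ) : Lin d (fun _ _ _ _ => a) := by
  refine ⟨|a|, fun J K L sb e h => ?_⟩
  have h1 := le_abs_self a
  have h2 := mul_nonneg (abs_nonneg a) h.he
  linarith

theorem Small.add {d : ℕ} {F G : ∀ (J : ℕ), KC d J → ℝ → ℝ → ℝ} (hF : Small d F)
    (hG : Small d G) : Small d (fun J K L sb => F J K L sb + G J K L sb) := by
  intro ε hε
  obtain ⟨θ₁, h1, J₁, k1⟩ := hF (ε / 2) (by linarith)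
  obtain ⟨θ₂, h2, J₂, k2⟩ := hG (ε / 2) (by linarith)
  refine ⟨min θ₁ θ₂, lt_min h1 h2, max J₁ J₂, fun J hJ K L sb e hK he => ?_⟩
  have hJ0 : (0 : ℝ) ≤ J := Nat.cast_nonneg J
  have a1 := k1 J (le_trans (le_max_left _ _) hJ) K L sb e hK
    (he.trans (mul_le_mul_of_nonneg_right (min_le_left _ _) hJ0))
  have a2 := k2 J (le_trans (le_max_right _ _) hJ) K L sb e hK
    (he.trans (mul_le_mul_of_nonneg_right (min_le_right _ _) hJ0))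
  linarith

theorem Small.mono {d : ℕ} {F G : ∀ (J : ℕ), KC d J → ℝ → ℝ → ℝ} (hF : Small d F)
    (h : ∀ (J : ℕ) (K : KC d J) (L sb e : ℝ), K.Ok L sb e → G J K L sb ≤ F J K L sb) :
    Small d G := by
  intro ε hε
  obtain ⟨θ, h1, J₁, k1⟩ := hF ε hε
  exact ⟨θ, h1, J₁, fun J hJ K L sb e hK he => (h J K L sb e hK).trans (k1 J hJ K L sb e hK he)⟩

theorem Small.smul {d : ℕ} {F : ∀ (J : ℕ), KC d J → ℝ → ℝ → ℝ} (hF : Small d F) {a : ℝ}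
    (ha : 0 ≤ a) : Small d (fun J K L sb => a * F J K L sb) := by
  intro ε hε
  obtain ⟨θ, h1, J₁, k1⟩ := hF (ε / (a + 1)) (by positivity)
  refine ⟨θ, h1, J₁, fun J hJ K L sb e hK he => ?_⟩
  have hJ0 : (0 : ℝ) ≤ J := Nat.cast_nonneg J
  have h2 := mul_le_mul_of_nonneg_left (k1 J hJ K L sb e hK he) ha
  have h3 : a * (ε / (a + 1) * J) ≤ ε * J := by
    have : a / (a + 1) ≤ 1 := by rw [div_le_one (by linarith)]; linarith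
    calc a * (ε / (a + 1) * J) = (a / (a + 1)) * (ε * J) := by ring
      _ ≤ 1 * (ε * J) := mul_le_mul_of_nonneg_right this (by positivity)
      _ = ε * J := one_mul _
  linarith

theorem Lin.small {d : ℕ} {F : ∀ (J : ℕ), KC d J → ℝ → ℝ → ℝ} (hF : Lin d F) : Small d F := by
  obtain ⟨C, hC⟩ := hF
  intro ε hε
  obtain ⟨J₀, hJ₀⟩ := exists_nat_gt (2 * |C| / ε)
  refine ⟨ε / (2 * (|C| + 1)), by positivity, J₀, fun J hJ K L sb e hK he => ?_⟩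
  have h1 := hC J K L sb e hK
  have h0 := hK.he
  have hJ' : 2 * |C| / ε ≤ J := hJ₀.le.trans (by exact_mod_cast hJ)
  rw [div_le_iff₀ hε] at hJ'
  have h2 : C * (e + 1) ≤ |C| * (e + 1) := mul_le_mul_of_nonneg_right (le_abs_self C) (by linarith)
  have h3 : |C| * e ≤ ε / 2 * J := by
    calc |C| * e ≤ |C| * (ε / (2 * (|C| + 1)) * J) := mul_le_mul_of_nonneg_left he (abs_nonneg C)
      _ = (|C| / (|C| + 1)) * (ε / 2 * J) := by field_simp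
      _ ≤ 1 * (ε / 2 * J) := by
        apply mul_le_mul_of_nonneg_right _ (by positivity)
        rw [div_le_one (by positivity)]; linarith
      _ = _ := one_mul _
  linarith

/-! ### Times -/

/-- (TS) Sizes of the differences of times and of the displacements (from EN; `log_ct`, `log_ct_le`,
`log_floor_mul`, `log_floor_mul_le`, `kap_le`, `kap_swap` of `H32/Dense/Times`). The last time in the
chain `t, s, t₁, r, tr, ta` is nearly uniform given all the previous ones. -/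
def TSStmt : Prop := ENStmt → ∀ d : ℕ,
  Lin d (fun J K _ _ => Ex K.q (fun w => ell (2 ^ J) (K.t w) (K.s w))) ∧
  Lin d (fun J K _ _ => Ex K.q (fun w => ell (2 ^ J) (K.s w) (K.tr w))) ∧
  Lin d (fun J K _ _ => Ex K.q (fun w => sz (2 ^ J) ((K.t₁ w - K.t w : ℤ) : ℝ))) ∧
  Lin d (fun J K _ _ => Ex K.q (fun w => sz (2 ^ J) ((K.s w - K.t w : ℤ) : ℝ))) ∧
  Lin d (fun J K _ _ => Ex K.q (fun w => sz (2 ^ J) ((K.r w - K.t w : ℤ) : ℝ))) ∧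
  Lin d (fun J K _ _ => Ex K.q (fun w => sz (2 ^ J) ((K.r w : ℝ) - K.t₁ w))) ∧
  Lin d (fun J K _ _ => Ex K.q (fun w => sz (2 ^ J) (K.c w))) ∧
  Lin d (fun J K _ _ => Ex K.q (fun w => sz (2 ^ J) (K.c₂ w))) ∧
  Lin d (fun J K _ _ => Ex K.q (fun w => sz (2 ^ J) ((K.s w : ℝ) + K.c w - K.ta w))) ∧
  Lin d (fun _ K _ _ => Ex K.q (fun w => Real.log (1 + |kap (K.t w) (K.s w) (K.t₁ w)|))) ∧
  Lin d (fun _ K _ _ => Ex K.q (fun w => Real.log (1 + |kap (K.t w) (K.s w) (K.t₁ w)|⁻¹))) ∧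
  Lin d (fun _ K _ _ => Ex K.q (fun w => Real.log (1 + |kap (K.s w) (K.tr w) (K.ta w)|))) ∧
  Lin d (fun _ K _ _ => Ex K.q (fun w => Real.log (1 + |kap (K.s w) (K.tr w) (K.ta w)|⁻¹)))

/-- (TU) Nearly uniform displacements and times, and upper bounds (`CH_le_tail`). From TS and TIA:
(1) `CH c (r,..) ≥ CH t₁ (r,..) - CH t₁ (c, r - t, t, s)`; (2) Bayes: `CH r + CH c (r) - CH c`;
(3) `CH (s+c) ≥ CH s (t₁,r,t,..) - CH s (s + c, t, t₁, r - t)`, and `CH s (t₁,r,t,v₀,v₁,Z) ≥ lg J - 3e`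
(Bayes, `us`, `ut`, `ur`); (4) `CH c₂ ≥ CH c - CH c (c₂, s, tr, ta)`; (5) `CH (tr + c₂) ≥ CH tr (..) -
CH tr (tr + c₂, s, ta, c)`; (6) Bayes. -/
def TUStmt : Prop := TIAStmt → VECStmt → TSStmt → ENStmt → ∀ d : ℕ,
  Lin d (fun J K _ _ => lg J -
    CH K.q K.c (fun w => (K.r w, K.V w, K.t w, K.s w, K.tr w, K.ta w, K.Z w))) ∧
  Lin d (fun J K _ _ => lg J - CH K.q K.r (fun w => (K.c w, K.V w, K.t w, K.s w, K.Z w))) ∧
  Lin d (fun J K _ _ => lg J - CH K.q (fun w => K.s w + K.c w)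
    (fun w => (K.t₁ w, K.r w, K.t w, (K.v₀ w, K.v₁ w), K.Z w))) ∧
  Lin d (fun J K _ _ => lg J -
    CH K.q K.c₂ (fun w => (K.V w, K.t w, K.s w, K.ta w, K.tr w, K.Z w))) ∧
  Lin d (fun J K _ _ => lg J - CH K.q (fun w => K.tr w + K.c₂ w)
    (fun w => (K.c w, K.s w, K.ta w, K.t w, K.V w, K.Z w))) ∧
  Lin d (fun J K _ _ => lg J -
    CH K.q K.ta (fun w => (K.c₂ w, K.V w, K.t w, K.s w, K.tr w, K.Z w))) ∧
  ∃ C : ℝ, ∀ (J : ℕ) (K : KC d J) (L sb e : ℝ), K.Ok L sb e → ∀ (β : Type) (W : K.Ω → β),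
    CH K.q K.c W ≤ lg J + C * (e + 1) ∧
    CH K.q (fun w => K.s w + K.c w) W ≤ lg J + C * (e + 1) ∧
    CH K.q K.c₂ W ≤ lg J + C * (e + 1) ∧
    CH K.q (fun w => K.tr w + K.c₂ w) W ≤ lg J + C * (e + 1)

/-! ### Facts -/

/-- (PTS) The four points seen from base lines (elementary: floors and the crossings):
`O` from the line 0 and from the line 2, `Y` from the line 2, `A` and `C` from the line 1 (direction
`v₀`, times `t`, displacements `t₁ - t`, `s - t`), `B` from the line 0. -/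
def PTSStmt : Prop := ∀ (d J : ℕ) (K : KC d J) (L sb e : ℝ), K.Ok L sb e →
  Pt (2 ^ J) K.q K.Z K.v₀ K.u₀ K.v₁ K.s K.c K.X ∧
  Pt (2 ^ J) K.q K.Z K.v₂ K.u₂ K.v₁ K.s K.c K.X ∧
  Pt (2 ^ J) K.q K.Z K.v₂ K.u₂ K.v₁ K.tr K.c₂ (fun w => (K.Y w).2) ∧
  Pt (2 ^ J) K.q K.Z K.v₁ K.u₁ K.v₀ K.t (fun w => K.t₁ w - K.t w) (fun w => (K.A w).2) ∧
  Pt (2 ^ J) K.q K.Z K.v₁ K.u₁ K.v₀ K.t (fun w => K.s w - K.t w) (fun w => (K.C w).2) ∧
  Pt (2 ^ J) K.q K.Z K.v₀ K.u₀ K.v₁ K.t (fun w => K.r w - K.t w) (fun w => (K.B w).2) ∧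
  Pt (2 ^ J) K.q K.Z K.v₀ K.u₀ K.v₁ K.t (fun w => - K.t w) (fun w => rd (K.u₁ w))

/-- (F3) `H(t|v₀,v₁) ≤ y01` (PT3 for the last point of PTS: `s + c = 0`, `X = rd u₁` is a function of
`v₁, Z`), `H(s|O,v₁,v₂) ≤ y12`. -/
def F3Stmt : Prop := PT3Stmt → PTSStmt → ∀ d : ℕ,
  Lin d (fun _ K _ _ => CH K.q K.t (fun w => ((K.v₀ w, K.v₁ w), K.Z w)) - K.y01) ∧
  Lin d (fun _ K _ _ => CH K.q K.s (fun w => (K.O w, (K.v₁ w, K.v₂ w), K.Z w)) - K.y12)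

/-- (F4) `H(O|v₀,v₁) = 2 log M - y01`, `H(Y|v₁,v₂) = 2 log M - y12`: upper bounds (PT4) and lower bounds
given `t`, given `s, ta`: `CH O (..) ≥ CH (s, c) (v₀,v₁,t) - CH s (O, v₀, v₁)` (PT3) with (TU);
`CH Y (v₁,v₂,s,ta) ≥ CH (tr, c₂) (V,t,s,ta) - CH tr (Y, v₁, v₂)`. -/
def F4Stmt : Prop := PT3Stmt → PT4Stmt → PTSStmt → TSStmt → ENStmt → TUStmt → TIAStmt → VECStmt →
  ∀ d : ℕ,
  Lin d (fun J K _ _ => CH K.q K.O (fun w => ((K.v₀ w, K.v₁ w), K.Z w)) - (2 * lg J - K.y01)) ∧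
  Lin d (fun J K _ _ => (2 * lg J - K.y01) -
    CH K.q K.O (fun w => ((K.v₀ w, K.v₁ w), K.t w, K.Z w))) ∧
  Lin d (fun J K _ _ => CH K.q K.Y (fun w => ((K.v₁ w, K.v₂ w), K.Z w)) - (2 * lg J - K.y12)) ∧
  Lin d (fun J K _ _ => (2 * lg J - K.y12) -
    CH K.q K.Y (fun w => ((K.v₁ w, K.v₂ w), K.s w, K.ta w, K.Z w)))

/-- (F5) `H(v₁|O,C) = 0`, `H(v₁|Y,C₂) = 0` (PT5). -/
def F5Stmt : Prop := PT5Stmt → PTSStmt → TSStmt → ENStmt → ∀ d : ℕ,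
  Lin d (fun _ K _ _ => CH K.q K.v₁ (fun w => (K.O w, K.C w, K.Z w))) ∧
  Lin d (fun _ K _ _ => CH K.q K.v₁ (fun w => (K.Y w, K.C₂ w, K.Z w)))

/-- (F6) `H(O|A,B) ≤ log M`, `H(Y|A₂,O) ≤ log M` (CHO, and the entropy of the times `s + c`, `tr + c₂`
by (TU)). -/
def F6Stmt : Prop := CHOStmt → VECStmt → PTSStmt → TSStmt → ENStmt → TUStmt → TIAStmt → ∀ d : ℕ,
  Lin d (fun J K _ _ => CH K.q K.O (fun w => (K.A w, K.B w, K.Z w)) - lg J) ∧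
  Lin d (fun J K _ _ => CH K.q K.Y (fun w => (K.A₂ w, K.O w, K.Z w)) - lg J)

/-- (F7) `eta + y12 ≤ log M` (PT7 for `Y`). -/
def F7Stmt : Prop := PT7Stmt → VECStmt → PTSStmt → TSStmt → ENStmt → ∀ d : ℕ,
  Small d (fun J K _ _ => K.et + K.y12 - lg J)

/-- (F8) `H(t₁|v₀,v₁,O,r) ≥ y01`: `CH (t₁, O) (v₀,v₁,r) ≥ 2 log M` ((TU) (3) and `ut`) minus
`CH O (v₀,v₁) ≤ 2 log M - y01` (F4). -/
def F8Stmt : Prop := (∀ d : ℕ,
    Lin d (fun J K _ _ => CH K.q K.O (fun w => ((K.v₀ w, K.v₁ w), K.Z w)) - (2 * lg J - K.y01))) →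
  (∀ d : ℕ, Lin d (fun J K _ _ => lg J - CH K.q (fun w => K.s w + K.c w)
    (fun w => (K.t₁ w, K.r w, K.t w, (K.v₀ w, K.v₁ w), K.Z w)))) → ∀ d : ℕ,
  Lin d (fun _ K _ _ => K.y01 -
    CH K.q K.t₁ (fun w => ((K.v₀ w, K.v₁ w), K.O w, K.r w, K.Z w)))

/-- (FK) `H(v₀|v₁,A) = 0`, `H(v₀|v₁,C) = 0`: KK for the base line 1, direction `v₀`, time `t`:
`CH (v₀,t) (A,v₁,Z) ≤ CH t (v₀,v₁,Z) + ε J`, and `CH t (v₀,A,v₁,Z) ≥ CH t (v₀,v₁,t₁,Z) ≥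
CH t (v₀,v₁,Z) - e`. -/
def FKStmt : Prop := KKStmt → Pool.KA.KP 1 → PTSStmt → TSStmt → ENStmt → ∀ d : ℕ,
  Small d (fun _ K _ _ => CH K.q K.v₀ (fun w => (K.v₁ w, K.A w, K.Z w))) ∧
  Small d (fun _ K _ _ => CH K.q K.v₀ (fun w => (K.v₁ w, K.C w, K.Z w)))

/-- (FP) Fact K': `H(v₁|O,v₂) ≤ q - H(s|v₁,v₂,O)`: KK for the base line 2, point `O`. -/
def FPStmt : Prop := KKStmt → Pool.KA.KP 1 → PTSStmt → TSStmt → ENStmt → TUStmt → TIAStmt →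
  VECStmt → ∀ d : ℕ,
  Small d (fun _ K _ _ => CH K.q K.v₁ (fun w => (K.O w, K.v₂ w, K.Z w)) - K.qh +
    CH K.q K.s (fun w => (K.O w, (K.v₁ w, K.v₂ w), K.Z w)))

end Pool.Agent.H24.KTH
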